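import Pool.Agent.T2h40.CW6.All

/-!
# Linear layouts of the edges: expanding the vertices

Let the edges of a multigraph be ordered by an injective function `f`.  Each vertex is replaced by
the path of the edge-ends at this vertex in the order of the edges.  An initial segment of the
order is left by one edge for each vertex that is incident with an edge of the segment and with
another edge.  So a linear layout of width six gives a carving of width six.
-/

set_option autoImplicit false

open Finset

namespace Pool.Agent.T2h40.PW5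

open Pool.Agent.W420.BF (cut bd Tr)
open Pool.Agent.T2h40.CW6

section

variable {V E : Type}

/-- the vertex of an edge-end -/
def en (s t : E → V) (h : E × Bool) : V := if h.2 = true then t h.1 else s h.1

/-- the order of the edge-ends -/
def key (f : E → ℕ) (h : E × Bool) : ℕ := 2 * f h.1 + (if h.2 = true then 1 else 0)

theorem key_inj {f : E → ℕ} (hf : Function.Injective f) {h h' : E × Bool}
    (hk : key f h = key f h') : h = h' := by
  obtain ⟨e, b⟩ := h
  obtain ⟨e', b'⟩ := h'
  unfold key at hk
  simp only at hk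
  have h1 : f e = f e' := by
    cases b <;> cases b' <;> simp at hk <;> omega
  have h2 := hf h1
  subst h2
  cases b <;> cases b' <;> simp at hk <;> simp

theorem key_le {f : E → ℕ} {h h' : E × Bool} (hk : key f h ≤ key f h') : f h.1 ≤ f h'.1 := by
  unfold key at hk
  split_ifs at hk <;> omega

variable [Fintype E]

open Classical in
/-- the next edge-end at the same vertex, if there is one -/
noncomputable def nx (s t : E → V) (f : E → ℕ) (h : E × Bool) : E × Bool :=
  if H : (univ.filter fun h' => en s t h' = en s t h ∧ key f h < key f h').Nonempty then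
    Classical.choose (exists_min_image _ (key f) H) else h

theorem nx_spec (s t : E → V) (f : E → ℕ) (h : E × Bool) :
    (nx s t f h = h ∧ ∀ h', en s t h' = en s t h → key f h' ≤ key f h) ∨
    (en s t (nx s t f h) = en s t h ∧ key f h < key f (nx s t f h) ∧
      ∀ h', en s t h' = en s t h → key f h < key f h' → key f (nx s t f h) ≤ key f h') := by
  classical
  by_cases H : (univ.filter fun h' => en s t h' = en s t h ∧ key f h < key f h').Nonempty
  · right
    have h1 := Classical.choose_spec (exists_min_image _ (key f) H)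
    have h2 : nx s t f h = Classical.choose (exists_min_image _ (key f) H) := by
      unfold nx
      rw [dif_pos H]
    rw [← h2] at h1
    obtain ⟨h3, h4⟩ := h1
    rw [mem_filter] at h3
    refine ⟨h3.2.1, h3.2.2, fun h' a b => h4 h' ?_⟩
    rw [mem_filter]
    exact ⟨mem_univ _, a, b⟩
  · left
    have h2 : nx s t f h = h := by
      unfold nx
      rw [dif_neg H]
    refine ⟨h2, fun h' a => ?_⟩
    by_contra hlt
    apply H
    exact ⟨h', by rw [mem_filter]; exact ⟨mem_univ _, a, by omega⟩⟩

theorem nx_en (s t : E → V) (f : E → ℕ) (h : E × Bool) : en s t (nx s t f h) = en s t h := by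
  rcases nx_spec s t f h with ⟨h1, _⟩ | ⟨h1, _⟩
  · rw [h1]
  · exact h1

theorem nx_le (s t : E → V) (f : E → ℕ) (h : E × Bool) : key f h ≤ key f (nx s t f h) := by
  rcases nx_spec s t f h with ⟨h1, _⟩ | ⟨_, h1, _⟩
  · rw [h1]
  · exact h1.le

theorem nx_inj {s t : E → V} {f : E → ℕ} (hf : Function.Injective f) {h h' k : E × Bool}
    (h1 : nx s t f h = k) (h2 : h ≠ k) (h3 : nx s t f h' = k) (h4 : h' ≠ k) : h = h' := by
  rcases nx_spec s t f h with ⟨a1, _⟩ | ⟨a1, a2, a3⟩
  · exact absurd (a1.symm.trans h1) h2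
  rcases nx_spec s t f h' with ⟨b1, _⟩ | ⟨b1, b2, b3⟩
  · exact absurd (b1.symm.trans h3) h4
  rw [h1] at a1 a2 a3
  rw [h3] at b1 b2 b3
  apply key_inj hf
  rcases lt_trichotomy (key f h) (key f h') with hlt | heq | hgt
  · have := a3 h' (b1.symm.trans a1) hlt
    omega
  · exact heq
  · have := b3 h (a1.symm.trans b1) hgt
    omega

/-! ### the expanded graph -/

/-- first ends of the edges of the expanded graph -/
def s0 : E ⊕ (E × Bool) → E × Bool := Sum.elim (fun e => (e, false)) id

/-- second ends of the edges of the expanded graph -/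
noncomputable def t0 (s t : E → V) (f : E → ℕ) : E ⊕ (E × Bool) → E × Bool :=
  Sum.elim (fun e => (e, true)) (nx s t f)

/-- the bridges on the paths -/
def Br (s t : E → V) (f : E → ℕ) : Set (E × Bool) :=
  {h | ∃ Z, cut s0 (t0 s t f) Z = {Sum.inr h}}

open Classical in
/-- second ends after the bridges have been replaced by loops -/
noncomputable def t1 (s t : E → V) (f : E → ℕ) : E ⊕ (E × Bool) → E × Bool :=
  Sum.elim (fun e => (e, true)) (fun h => if h ∈ Br s t f then h else nx s t f h)

theorem mcut {V' E' : Type} [Fintype E'] {s' t' : E' → V'} {Z : Set V'} {e : E'} :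
    e ∈ cut s' t' Z ↔ ¬ (s' e ∈ Z ↔ t' e ∈ Z) := by
  classical
  unfold cut
  simp

theorem mem_cut1 {s t : E → V} {f : E → ℕ} {Z : Set (E × Bool)} {x : E ⊕ (E × Bool)} :
    x ∈ cut s0 (t1 s t f) Z ↔ x ∈ cut s0 (t0 s t f) Z ∧ ¬ ∃ h ∈ Br s t f, x = Sum.inr h := by
  classical
  rw [mcut, mcut]
  rcases x with e | h
  · simp [t0, t1]
  · by_cases hb : h ∈ Br s t f
    · simp [t1, s0, hb]
    · simp [t0, t1, hb]

theorem cut_symmDiff {V' E' : Type} [Fintype E'] [DecidableEq E'] (s' t' : E' → V')
    (X Y : Set V') : cut s' t' (symmDiff X Y) = symmDiff (cut s' t' X) (cut s' t' Y) := by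
  ext e
  rw [Finset.mem_symmDiff, mcut, mcut, mcut, Set.mem_symmDiff, Set.mem_symmDiff]
  tauto

theorem cut_of_bridges [DecidableEq (E ⊕ (E × Bool))] (s t : E → V) (f : E → ℕ)
    (S : Finset (E ⊕ (E × Bool))) :
    (∀ x ∈ S, ∃ h ∈ Br s t f, x = Sum.inr h) → ∃ Z, cut s0 (t0 s t f) Z = S := by
  induction S using Finset.induction_on with
  | empty =>
    intro _
    refine ⟨∅, ?_⟩
    ext e
    rw [mcut]
    simp
  | insert x S hx ih =>
    intro h
    obtain ⟨Z, hZ⟩ := ih (fun y hy => h y (mem_insert_of_mem hy))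
    obtain ⟨k, ⟨Z', hZ'⟩, rfl⟩ := h x (mem_insert_self _ _)
    refine ⟨symmDiff Z' Z, ?_⟩
    rw [cut_symmDiff, hZ, hZ']
    ext y
    rw [Finset.mem_symmDiff, mem_singleton, mem_insert]
    constructor
    · rintro (⟨h1, _⟩ | ⟨h1, _⟩)
      · exact Or.inl h1
      · exact Or.inr h1
    · rintro (h1 | h1)
      · refine Or.inl ⟨h1, ?_⟩
        rw [h1]
        exact hx
      · refine Or.inr ⟨h1, ?_⟩
        rintro rfl
        exact hx h1

theorem chain {s t : E → V} {f : E → ℕ} (hf : Function.Injective f) {Z : Set (E × Bool)}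
    (hZ : ∀ h, h ∈ Z ↔ nx s t f h ∈ Z) : ∀ (n : ℕ) (h h' : E × Bool), en s t h = en s t h' →
      key f h ≤ key f h' → key f h' - key f h ≤ n → (h ∈ Z ↔ h' ∈ Z) := by
  intro n
  induction n with
  | zero =>
    intro h h' _ h2 h3
    rw [key_inj hf (show key f h = key f h' by omega)]
  | succ n ih =>
    intro h h' h1 h2 h3
    rcases Nat.eq_or_lt_of_le h2 with h4 | h4
    · rw [key_inj hf h4]
    · rcases nx_spec s t f h with ⟨_, a1⟩ | ⟨a1, a2, a3⟩
      · have := a1 h' h1.symm
        omega
      · rw [hZ h]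
        have h5 := a3 h' h1.symm h4
        exact ih _ _ (a1.trans h1) h5 (by omega)

theorem bridgeless1 {s t : E → V} {f : E → ℕ} (hf : Function.Injective f)
    (hb : ∀ Z : Set V, (cut s t Z).card ≠ 1) (Z : Set (E × Bool)) :
    (cut s0 (t1 s t f) Z).card ≠ 1 := by
  classical
  intro hcard
  obtain ⟨x, hx⟩ := card_eq_one.mp hcard
  obtain ⟨Y, hY⟩ := cut_of_bridges s t f
    ((cut s0 (t0 s t f) Z).filter fun x => ∃ h ∈ Br s t f, x = Sum.inr h)
    (fun y hy => (mem_filter.1 hy).2)
  have hW : cut s0 (t0 s t f) (symmDiff Z Y) = {x} := by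
    rw [cut_symmDiff, hY, ← hx]
    ext y
    rw [Finset.mem_symmDiff, mem_filter, mem_cut1]
    constructor
    · rintro (⟨h1, h2⟩ | ⟨⟨h1, _⟩, h2⟩)
      · exact ⟨h1, fun h3 => h2 ⟨h1, h3⟩⟩
      · exact absurd h1 h2
    · rintro ⟨h1, h2⟩
      exact Or.inl ⟨h1, fun h3 => h2 h3.2⟩
  have hxm : x ∈ cut s0 (t1 s t f) Z := by rw [hx]; exact mem_singleton_self _
  rcases x with e | h
  · have hZ : ∀ h, h ∈ symmDiff Z Y ↔ nx s t f h ∈ symmDiff Z Y := by
      intro h
      by_contra hno
      have h1 : (Sum.inr h : E ⊕ (E × Bool)) ∈ cut s0 (t0 s t f) (symmDiff Z Y) := by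
        rw [mcut]
        exact hno
      rw [hW, mem_singleton] at h1
      cases h1
    have hch : ∀ h h' : E × Bool, en s t h = en s t h' → (h ∈ symmDiff Z Y ↔ h' ∈ symmDiff Z Y) := by
      intro h h' h1
      rcases le_total (key f h) (key f h') with h2 | h2
      · exact chain hf hZ _ h h' h1 h2 le_rfl
      · exact (chain hf hZ _ h' h h1.symm h2 le_rfl).symm
    have hin : ∀ h, en s t h ∈ {v | ∃ h' ∈ symmDiff Z Y, en s t h' = v} ↔ h ∈ symmDiff Z Y := by
      intro h
      constructor
      · rintro ⟨h', h1, h2⟩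
        exact (hch h' h h2).1 h1
      · intro h1
        exact ⟨h, h1, rfl⟩
    apply hb {v | ∃ h' ∈ symmDiff Z Y, en s t h' = v}
    rw [card_eq_one]
    refine ⟨e, ?_⟩
    ext e'
    rw [mcut, mem_singleton]
    have h1 : s e' = en s t (e', false) := rfl
    have h2 : t e' = en s t (e', true) := rfl
    rw [h1, h2, hin, hin]
    have h3 : (Sum.inl e' : E ⊕ (E × Bool)) ∈ cut s0 (t0 s t f) (symmDiff Z Y) ↔
        ¬ ((e', false) ∈ symmDiff Z Y ↔ (e', true) ∈ symmDiff Z Y) := mcut
    rw [← h3, hW, mem_singleton, Sum.inl.injEq]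
  · rw [mem_cut1] at hxm
    exact hxm.2 ⟨h, ⟨_, hW⟩, rfl⟩

/-! ### widths -/

/-- the vertices incident with an edge before `n` and with another edge -/
def mid (s t : E → V) (f : E → ℕ) (n : ℕ) : Set V :=
  {v | (∃ e, f e < n ∧ (s e = v ∨ t e = v)) ∧ ∃ e, n ≤ f e ∧ (s e = v ∨ t e = v)}

omit [Fintype E] in
theorem en_inc (s t : E → V) (h : E × Bool) : s h.1 = en s t h ∨ t h.1 = en s t h := by
  unfold en
  by_cases hb : h.2 = true
  · right; rw [if_pos hb]
  · left; rw [if_neg hb]

theorem cut1_sub (s t : E → V) (f : E → ℕ) (Z : Set (E × Bool)) :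
    cut s0 (t1 s t f) Z ⊆ cut s0 (t0 s t f) Z := fun _ hx => (mem_cut1.1 hx).1

theorem cross {s t : E → V} {f : E → ℕ} {n : ℕ} {x : E ⊕ (E × Bool)}
    (hx : x ∈ cut s0 (t0 s t f) {h | f h.1 < n}) :
    ∃ h, x = Sum.inr h ∧ f h.1 < n ∧ n ≤ f (nx s t f h).1 := by
  rw [mcut] at hx
  rcases x with e | h
  · exact absurd (Iff.rfl : (f e < n ↔ f e < n)) hx
  · refine ⟨h, rfl, ?_⟩
    have h1 : ¬ (f h.1 < n ↔ f (nx s t f h).1 < n) := hx
    have h2 := key_le (nx_le s t f h)
    constructor
    · by_contra h3
      exact h1 ⟨fun h4 => absurd h4 h3, fun h4 => absurd (lt_of_le_of_lt h2 h4) h3⟩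
    · by_contra h3
      exact h1 ⟨fun _ => not_le.1 h3, fun h4 => lt_of_le_of_lt h2 h4⟩

theorem cut_seg [Finite V] {s t : E → V} {f : E → ℕ} (hf : Function.Injective f) (n : ℕ) :
    (cut s0 (t1 s t f) {h | f h.1 < n}).card ≤ (mid s t f n).ncard := by
  classical
  refine (card_le_card (cut1_sub s t f _)).trans ?_
  rw [← Set.ncard_coe_finset]
  apply Set.ncard_le_ncard_of_injOn (Sum.elim (fun e => s e) (en s t))
  · intro x hx
    obtain ⟨h, rfl, h1, h2⟩ := cross (Finset.mem_coe.1 hx)
    refine ⟨⟨h.1, h1, en_inc s t h⟩, (nx s t f h).1, h2, ?_⟩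
    have := en_inc s t (nx s t f h)
    rw [nx_en] at this
    exact this
  · intro x hx y hy hxy
    obtain ⟨h, rfl, h1, h2⟩ := cross (Finset.mem_coe.1 hx)
    obtain ⟨h', rfl, h3, h4⟩ := cross (Finset.mem_coe.1 hy)
    have hen : en s t h = en s t h' := hxy
    congr 1
    apply key_inj hf
    rcases lt_trichotomy (key f h) (key f h') with hlt | heq | hgt
    · exfalso
      rcases nx_spec s t f h with ⟨a1, _⟩ | ⟨a1, a2, a3⟩
      · rw [a1] at h2; omega
      · have := key_le (a3 h' hen.symm hlt)
        omega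
    · exact heq
    · exfalso
      rcases nx_spec s t f h' with ⟨a1, _⟩ | ⟨a1, a2, a3⟩
      · rw [a1] at h4; omega
      · have := key_le (a3 h hen hgt)
        omega

theorem cut_one {s t : E → V} {f : E → ℕ} (hf : Function.Injective f) (h : E × Bool) :
    (cut s0 (t1 s t f) {h}).card ≤ 3 := by
  classical
  refine (card_le_card (cut1_sub s t f _)).trans ?_
  have hsub : cut s0 (t0 s t f) {h} ⊆ ({Sum.inl h.1, Sum.inr h} : Finset (E ⊕ (E × Bool))) ∪
      (univ.filter fun x => ∃ h', x = Sum.inr h' ∧ nx s t f h' = h ∧ h' ≠ h) := by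
    intro x hx
    rw [mcut] at hx
    rw [mem_union, mem_insert, mem_singleton, mem_filter]
    rcases x with e | h'
    · left; left
      have h1 : ¬ ((e, false) = h ↔ (e, true) = h) := hx
      by_cases h2 : (e, false) = h
      · rw [← h2]
      · by_cases h3 : (e, true) = h
        · rw [← h3]
        · exact absurd ⟨fun a => absurd a h2, fun a => absurd a h3⟩ h1
    · have h1 : ¬ (h' = h ↔ nx s t f h' = h) := hx
      by_cases h2 : h' = h
      · left; right; rw [h2]
      · right
        refine ⟨mem_univ _, h', rfl, ?_, h2⟩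
        by_contra h3
        exact h1 ⟨fun a => absurd a h2, fun a => absurd a h3⟩
  refine (card_le_card hsub).trans ((card_union_le _ _).trans ?_)
  have h1 : ({Sum.inl h.1, Sum.inr h} : Finset (E ⊕ (E × Bool))).card ≤ 2 := card_le_two
  have h2 : (univ.filter fun x : E ⊕ (E × Bool) =>
      ∃ h', x = Sum.inr h' ∧ nx s t f h' = h ∧ h' ≠ h).card ≤ 1 := by
    rw [card_le_one]
    intro x hx y hy
    obtain ⟨_, a, rfl, a1, a2⟩ := mem_filter.1 hx
    obtain ⟨_, b, rfl, b1, b2⟩ := mem_filter.1 hy
    rw [nx_inj hf a1 a2 b1 b2]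
  omega

theorem cut_union_le {V' E' : Type} [Fintype E'] (s' t' : E' → V') (X Y : Set V') :
    (cut s' t' (X ∪ Y)).card ≤ (cut s' t' X).card + (cut s' t' Y).card := by
  classical
  refine (card_le_card ?_).trans (card_union_le _ _)
  intro e he
  rw [mcut] at he
  rw [mem_union, mcut, mcut]
  simp only [Set.mem_union] at he
  tauto

theorem tree [Finite V] {s t : E → V} {f : E → ℕ} (hf : Function.Injective f)
    (hm : ∀ n, (mid s t f n).ncard ≤ 6) : ∀ n : ℕ, (∃ e, f e < n) →
    ∃ T : Tr (E × Bool), T.set = {h | f h.1 < n} ∧ T.Nodup ∧ T.Width s0 (t1 s t f) 6 := by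
  intro n
  induction n with
  | zero => rintro ⟨e, he⟩; omega
  | succ n ih =>
    intro _
    by_cases hn : ∃ e, f e = n
    · obtain ⟨e, he⟩ := hn
      have hpair : (Tr.node (.leaf (e, false)) (.leaf (e, true)) : Tr (E × Bool)).set =
          {h | f h.1 = n} := by
        ext h
        constructor
        · rintro (h1 | h1)
          · have : h = (e, false) := h1
            rw [this]; exact he
          · have : h = (e, true) := h1
            rw [this]; exact he
        · intro h1
          have h2 : h.1 = e := hf (h1.trans he.symm)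
          obtain ⟨e', b⟩ := h
          simp only at h2
          subst h2
          cases b
          · exact Or.inl rfl
          · exact Or.inr rfl
      have hpn : (Tr.node (.leaf (e, false)) (.leaf (e, true)) : Tr (E × Bool)).Nodup := by
        refine ⟨?_, trivial, trivial⟩
        rw [Set.disjoint_left]
        intro h h1 h2
        have a : h = (e, false) := h1
        have b : h = (e, true) := h2
        rw [a] at b
        simp at b
      have hpw : (Tr.node (.leaf (e, false)) (.leaf (e, true)) : Tr (E × Bool)).Width s0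
          (t1 s t f) 6 := by
        have w1 := cut_one (s := s) (t := t) hf (e, false)
        have w2 := cut_one (s := s) (t := t) hf (e, true)
        refine ⟨?_, ?_, ?_⟩
        · have := cut_union_le s0 (t1 s t f) {(e, false)} {(e, true)}
          show (cut s0 (t1 s t f) ({(e, false)} ∪ {(e, true)})).card ≤ 6
          omega
        · show (cut s0 (t1 s t f) {(e, false)}).card ≤ 6
          omega
        · show (cut s0 (t1 s t f) {(e, true)}).card ≤ 6
          omega
      by_cases hex : ∃ e', f e' < n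
      · obtain ⟨T, h1, h2, h3⟩ := ih hex
        have hset : (Tr.node T (.node (.leaf (e, false)) (.leaf (e, true)))).set =
            {h | f h.1 < n + 1} := by
          show T.set ∪ (Tr.node (.leaf (e, false)) (.leaf (e, true))).set = _
          rw [h1, hpair]
          ext h
          simp only [Set.mem_union, Set.mem_ofPred_eq]
          omega
        refine ⟨.node T (.node (.leaf (e, false)) (.leaf (e, true))), hset, ⟨?_, h2, hpn⟩,
          ?_, h3, hpw⟩
        · rw [h1, hpair, Set.disjoint_left]
          intro h a b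
          simp only [Set.mem_ofPred_eq] at a b
          omega
        · have := (cut_seg (s := s) (t := t) hf (n + 1)).trans (hm (n + 1))
          rw [← hset] at this
          exact this
      · refine ⟨_, ?_, hpn, hpw⟩
        rw [hpair]
        ext h
        simp only [Set.mem_ofPred_eq]
        constructor
        · intro h1; omega
        · intro h1
          by_contra h2
          exact hex ⟨h.1, by omega⟩
    · have hex : ∃ e', f e' < n := by
        rename_i h
        obtain ⟨e, he⟩ := h
        refine ⟨e, ?_⟩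
        rcases Nat.lt_or_ge (f e) n with h1 | h1
        · exact h1
        · exact absurd ⟨e, by omega⟩ hn
      obtain ⟨T, h1, h2, h3⟩ := ih hex
      refine ⟨T, ?_, h2, h3⟩
      rw [h1]
      ext h
      simp only [Set.mem_ofPred_eq]
      constructor
      · intro h1; omega
      · intro h1
        rcases Nat.lt_or_ge (f h.1) n with h4 | h4
        · exact h4
        · exact absurd ⟨h.1, by omega⟩ hn

/-! ### transfer of covers -/

theorem bd_transfer {s t : E → V} {f : E → ℕ} (c : E ⊕ (E × Bool) → ZMod 2) (v : V)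
    (h : ∀ h : E × Bool, bd s0 (t1 s t f) c h = 0) : bd s t (fun e => c (Sum.inl e)) v = 0 := by
  classical
  have h1 : ∑ h ∈ univ.filter (fun h : E × Bool => en s t h = v), bd s0 (t1 s t f) c h = 0 :=
    sum_eq_zero fun k _ => h k
  unfold bd at h1
  rw [sum_comm] at h1
  have h2 : ∀ x : E ⊕ (E × Bool),
      ∑ h ∈ univ.filter (fun h : E × Bool => en s t h = v), c x *
        ((if s0 x = h then 1 else 0) + (if t1 s t f x = h then 1 else 0)) =
      c x * ((if en s t (s0 x) = v then 1 else 0) + (if en s t (t1 s t f x) = v then 1 else 0)) := by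
    intro x
    rw [← mul_sum, sum_add_distrib]
    have h3 : ∀ a : E × Bool, ∑ h ∈ univ.filter (fun h : E × Bool => en s t h = v),
        (if a = h then (1 : ZMod 2) else 0) = if en s t a = v then 1 else 0 := by
      intro a
      rw [sum_ite_eq]
      simp
    rw [h3, h3]
  have h1' : ∑ x : E ⊕ (E × Bool),
      c x * ((if en s t (s0 x) = v then 1 else 0) + (if en s t (t1 s t f x) = v then 1 else 0)) =
        0 := by
    refine Eq.trans ?_ h1
    refine sum_congr rfl fun x _ => ?_
    rw [← h2 x]
    refine sum_congr rfl fun h _ => ?_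
    congr
  rw [Fintype.sum_sum_type] at h1'
  have h4 : ∑ h : E × Bool, c (Sum.inr h) * ((if en s t (s0 (Sum.inr h)) = v then 1 else 0) +
      (if en s t (t1 s t f (Sum.inr h)) = v then 1 else 0)) = 0 := by
    apply sum_eq_zero
    intro h _
    have h5 : en s t (t1 s t f (Sum.inr h)) = en s t h := by
      show en s t (if h ∈ Br s t f then h else nx s t f h) = en s t h
      split_ifs
      · rfl
      · exact nx_en s t f h
    have h6 : en s t (s0 (Sum.inr h : E ⊕ (E × Bool))) = en s t h := rfl
    rw [h5, h6]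
    have h7 : (1 : ZMod 2) + 1 = 0 := by decide
    split_ifs
    · rw [h7, mul_zero]
    · rw [add_zero, mul_zero]
  rw [h4, add_zero] at h1'
  unfold bd
  refine Eq.trans ?_ h1'
  refine sum_congr rfl fun e _ => ?_
  have e1 : en s t (s0 (Sum.inl e : E ⊕ (E × Bool))) = s e := rfl
  have e2 : en s t (t1 s t f (Sum.inl e)) = t e := rfl
  rw [e1, e2]

/-- **Theorem.** Six even subgraphs for a linear layout of the edges of width six. -/
theorem linear [Finite V] (s t : E → V) (f : E → ℕ) (hf : Function.Injective f)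
    (hm : ∀ n, (mid s t f n).ncard ≤ 6) (hb : ∀ Z : Set V, (cut s t Z).card ≠ 1) :
    ∃ c, Cov s t Set.univ c := by
  classical
  rcases isEmpty_or_nonempty E with hE | ⟨⟨e0⟩⟩
  · refine ⟨fun _ _ => 0, fun e => (hE.false e).elim, fun v _ i => ?_⟩
    unfold bd
    exact sum_eq_zero fun e _ => (hE.false e).elim
  · have hbig : ∀ e, f e < ∑ e, f e + 1 := fun e =>
      Nat.lt_succ_of_le (single_le_sum (f := f) (fun _ _ => Nat.zero_le _) (mem_univ e))
    obtain ⟨T, h1, h2, h3⟩ := tree (s := s) (t := t) hf hm _ ⟨e0, hbig e0⟩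
    have huniv : T.set = Set.univ := by
      rw [h1]
      ext h
      simp only [Set.mem_ofPred_eq, Set.mem_univ, iff_true]
      exact hbig _
    obtain ⟨c, hc⟩ := covers (E × Bool) (E ⊕ (E × Bool)) s0 (t1 s t f) T h2 h3
      (fun x => by rw [huniv]; exact ⟨Set.mem_univ _, Set.mem_univ _⟩) (bridgeless1 hf hb)
    rw [huniv] at hc
    exact ⟨fun i e => c i (Sum.inl e), fun e => hc.1 (Sum.inl e), fun v _ i =>
      bd_transfer (c i) v fun h => hc.2 h (Set.mem_univ _) i⟩

end

end Pool.Agent.T2h40.PW5
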